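import Pool.Agent.W978.QO.Stm
import Pool.Agent.W509.QN.BR

set_option autoImplicit false

namespace Pool.Agent.W452.QO

open Finset Pool.Agent.W978.QN Pool.Agent.W978.QO

lemma cp_wv (M : Fin 3 → Fin 3 → ℤ) (q q' : Fin 3 → ℤ) (h : cp (wv M q) (wv M q') = 0)
    (hM : dm M ≠ 0) : cp q q' = 0 := by
  have h0 := congrFun h 0
  have h1 := congrFun h 1
  have h2 := congrFun h 2
  simp only [cp, wv, Fin.sum_univ_three, Matrix.cons_val_zero, Matrix.cons_val_one,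
    Matrix.cons_val, Pi.zero_apply] at h0 h1 h2
  have key : ∀ i : Fin 3, dm M * cp q q' i = 0 := by
    intro i
    rw [dm_eq]
    fin_cases i
    · simp only [cp, Fin.zero_eta, Matrix.cons_val_zero]
      linear_combination (M 0 0) * h0 + (M 1 0) * h1 + (M 2 0) * h2
    · simp only [cp, Fin.mk_one, Matrix.cons_val_one, Matrix.cons_val_zero]
      linear_combination (M 0 1) * h0 + (M 1 1) * h1 + (M 2 1) * h2
    · simp only [cp, Fin.reduceFinMk, Matrix.cons_val]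
      linear_combination (M 0 2) * h0 + (M 1 2) * h1 + (M 2 2) * h2
  funext i
  exact (mul_eq_zero.1 (key i)).resolve_left hM

lemma cp_trans (w w' v : Fin 3 → ℤ) (hv : v ≠ 0) (h : cp w v = 0) (h' : cp w' v = 0) :
    cp w w' = 0 := by
  have a0 := congrFun h 0
  have a1 := congrFun h 1
  have a2 := congrFun h 2
  have b0 := congrFun h' 0
  have b1 := congrFun h' 1
  have b2 := congrFun h' 2
  simp only [cp, Matrix.cons_val_zero, Matrix.cons_val_one,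
    Matrix.cons_val, Pi.zero_apply] at a0 a1 a2 b0 b1 b2
  obtain ⟨i, hi⟩ : ∃ i, v i ≠ 0 := by
    by_contra hc
    push Not at hc
    exact hv (funext hc)
  have key : ∀ j : Fin 3, v i * cp w w' j = 0 := by
    intro j
    fin_cases i <;> fin_cases j <;>
      simp only [cp, Fin.zero_eta, Fin.mk_one, Fin.reduceFinMk, Matrix.cons_val_zero,
        Matrix.cons_val_one, Matrix.cons_val] 
    · linear_combination w 1 * b1 + w 2 * b2 + w' 0 * a0
    · linear_combination (w' 0) * a1 - (w 0) * b1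
    · linear_combination (w' 0) * a2 - (w 0) * b2
    · linear_combination (w' 1) * a0 - (w 1) * b0
    · linear_combination w 2 * b2 + w 0 * b0 + w' 1 * a1
    · linear_combination (w' 1) * a2 - (w 1) * b2
    · linear_combination (w' 2) * a0 - (w 2) * b0
    · linear_combination (w' 2) * a1 - (w 2) * b1
    · linear_combination w 0 * b0 + w 1 * b1 + w' 2 * a2
  funext j
  exact (mul_eq_zero.1 (key j)).resolve_left hi

lemma rep_par (q q' : Fin 3 → ℤ) (hq : Rep q) (hq' : Rep q') (h : cp q q' = 0) : q = q' := by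
  obtain ⟨⟨u, hu⟩, hr⟩ := hq
  obtain ⟨⟨u', hu'⟩, hr'⟩ := hq'
  have h0 := congrFun h 0
  have h1 := congrFun h 1
  have h2 := congrFun h 2
  simp only [cp, Matrix.cons_val_zero, Matrix.cons_val_one,
    Matrix.cons_val, Pi.zero_apply] at h0 h1 h2
  rw [Fin.sum_univ_three] at hu hu'
  obtain ⟨t, ht⟩ : ∃ t, t = u 0 * q' 0 + u 1 * q' 1 + u 2 * q' 2 := ⟨_, rfl⟩
  have e0 : q' 0 = t * q 0 := by
    rw [ht]; linear_combination (-(q' 0)) * hu - u 1 * h2 + u 2 * h1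
  have e1 : q' 1 = t * q 1 := by
    rw [ht]; linear_combination (-(q' 1)) * hu + u 0 * h2 - u 2 * h0
  have e2 : q' 2 = t * q 2 := by
    rw [ht]; linear_combination (-(q' 2)) * hu - u 0 * h1 + u 1 * h0
  have ht1 : t ∣ 1 := by
    rw [← hu', e0, e1, e2]
    exact ⟨u' 0 * q 0 + u' 1 * q 1 + u' 2 * q 2, by ring⟩
  have ht2 : t = 1 ∨ t = -1 := Int.isUnit_iff.1 (isUnit_of_dvd_one ht1)
  rcases ht2 with rfl | rfl
  · funext i
    fin_cases i
    · simpa using e0.symm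
    · simpa using e1.symm
    · simpa using e2.symm
  · exfalso
    rcases hr with a | ⟨a, b⟩ | ⟨a, b, c⟩ <;> rcases hr' with d | ⟨d, e⟩ | ⟨d, e, f⟩ <;> omega

lemma inU_of (a : (Fin 3 → Fin 3) → ℤ) (P : Fin 3 → Fin 3 → ℤ)
    (h0 : dm (mp (cu a 1) (P 0)) ≠ 0) (h1 : dm (mp (cu a (Equiv.swap 0 1)) (P 1)) ≠ 0)
    (h2 : dm (mp (cu a (Equiv.swap 0 2)) (P 2)) ≠ 0) : InU a P := by
  have br := Pool.Agent.W509.QN.br
  have tr : ∀ k l : Fin 3, k ≠ l → (mt a l k P).det = (mt a k l P).det := by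
    intro k l hkl
    rw [← Matrix.det_transpose]
    congr 1
    ext u v
    show tf a (Function.update (Function.update P l (bv v)) k (bv u)) =
      tf a (Function.update (Function.update P k (bv u)) l (bv v))
    rw [Function.update_comm hkl.symm]
  have d0 := det_dm br a 1 P
  have d1 := det_dm br a (Equiv.swap 0 1) P
  have d2 := det_dm br a (Equiv.swap 0 2) P
  have e1 : (Equiv.swap (0 : Fin 3) 1) 0 = 1 := by decide
  have e2 : (Equiv.swap (0 : Fin 3) 1) 1 = 0 := by decide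
  have e3 : (Equiv.swap (0 : Fin 3) 1) 2 = 2 := by decide
  have e4 : (Equiv.swap (0 : Fin 3) 2) 0 = 2 := by decide
  have e5 : (Equiv.swap (0 : Fin 3) 2) 1 = 1 := by decide
  have e6 : (Equiv.swap (0 : Fin 3) 2) 2 = 0 := by decide
  simp only [Equiv.Perm.coe_one, id_eq] at d0
  rw [e1, e2, e3] at d1
  rw [e4, e5, e6] at d2
  have g0 : (mt a 1 2 P).det ≠ 0 := by rw [d0]; exact h0
  have g1 : (mt a 0 2 P).det ≠ 0 := by rw [d1]; exact h1
  have g2 : (mt a 1 0 P).det ≠ 0 := by rw [d2]; exact h2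
  intro k l hkl
  fin_cases k <;> fin_cases l
  · exact absurd rfl hkl
  · have := tr 1 0 (by decide); show (mt a 0 1 P).det ≠ 0; rw [this]; exact g2
  · exact g1
  · exact g2
  · exact absurd rfl hkl
  · exact g0
  · have := tr 0 2 (by decide); show (mt a 2 0 P).det ≠ 0; rw [this]; exact g1
  · have := tr 1 2 (by decide); show (mt a 2 1 P).det ≠ 0; rw [this]; exact g0
  · exact absurd rfl hkl


open Classical in
theorem lb : S_DC → S_L1 → S_L2 → S_L3 → S_LB := by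
  intro hDC hL1 hL2 hL3 a ha
  have br := Pool.Agent.W509.QN.br
  obtain ⟨b0, hb0⟩ : ∃ b0, b0 = cu a 1 := ⟨_, rfl⟩
  obtain ⟨b1, hb1⟩ : ∃ b1, b1 = cu a (Equiv.swap 0 1) := ⟨_, rfl⟩
  obtain ⟨b2, hb2⟩ : ∃ b2, b2 = cu a (Equiv.swap 0 2) := ⟨_, rfl⟩
  obtain ⟨c0, K0, hc0, hP0⟩ := hL2 b0 (by rw [hb0]; exact hDC a ha 1)
  obtain ⟨c1, K1, hc1, hP1⟩ := hL2 b1 (by rw [hb1]; exact hDC a ha (Equiv.swap 0 1))
  obtain ⟨F, hF0, hF⟩ := hL3 b2 (by rw [hb2]; exact hDC a ha (Equiv.swap 0 2))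
  obtain ⟨cL, KL, hcL, hT⟩ := hL1
  obtain ⟨m, hm⟩ : ∃ m : ℕ, m = mxb b0 := ⟨_, rfl⟩
  have hm1 : 1 ≤ m := by rw [hm]; exact one_le_mxb b0
  have hm1' : (1 : ℝ) ≤ m := by exact_mod_cast hm1
  obtain ⟨Ka, hKa⟩ := exists_nat_ge (54 * (F.card : ℝ) / (c0 * c1))
  obtain ⟨Kb, hKb⟩ := exists_nat_ge (108 * (m : ℝ) / cL)
  refine ⟨(c0 * c1 / 2) * (cL / (18 * m)), K0 + K1 + Ka + Kb + KL * (9 * m) ^ 3 + 1,
    by positivity, ?_⟩
  intro X₁ X₂ X₃ h1 h2 h3
  obtain ⟨K, hK⟩ : ∃ K, K = K0 + K1 + Ka + Kb + KL * (9 * m) ^ 3 + 1 := ⟨_, rfl⟩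
  rw [← hK] at h1 h2 h3
  have hX1 : 1 ≤ X₁ := by omega
  have hX2 : 1 ≤ X₂ := by omega
  have hX1r : (1 : ℝ) ≤ X₁ := by exact_mod_cast hX1
  have hX2r : (1 : ℝ) ≤ X₂ := by exact_mod_cast hX2
  set P1 := (bx X₁).filter fun p => Rep p ∧ (X₁ : ℤ) < 2 * nm p ∧ dm (mp b0 p) ≠ 0 with hP1d
  set P2 := (bx X₂).filter fun p => Rep p ∧ (X₂ : ℤ) < 2 * nm p ∧ dm (mp b1 p) ≠ 0 with hP2d
  have cP1 := hP0 X₁ (by omega)
  have cP2 := hP1 X₂ (by omega)
  rw [← hP1d] at cP1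
  rw [← hP2d] at cP2
  set W : (Fin 3 → ℤ) × (Fin 3 → ℤ) → (Fin 3 → ℤ) := fun x => wv (mp b0 x.1) x.2 with hW
  set good := (P1 ×ˢ P2).filter (fun x => ∀ v ∈ F, cp (W x) v ≠ 0) with hgood
  set bad := (P1 ×ˢ P2).filter (fun x => ¬ ∀ v ∈ F, cp (W x) v ≠ 0) with hbad
  have hgb : good.card + bad.card = P1.card * P2.card := by
    rw [hgood, hbad, ← card_product]
    exact card_filter_add_card_filter_not _
  have hP1le : (P1.card : ℝ) ≤ 27 * (X₁ : ℝ) ^ 3 := by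
    refine le_trans ?_ (card_bx_le hX1)
    exact_mod_cast card_filter_le _ _
  have hbadle : bad.card ≤ (P1 ×ˢ F).card := by
    have hex : ∀ x ∈ bad, ∃ v ∈ F, cp (W x) v = 0 := by
      intro x hx
      have := (mem_filter.1 hx).2
      push Not at this
      exact this
    refine card_le_card_of_injOn (fun x => (x.1, if h : ∃ v ∈ F, cp (W x) v = 0 then
      Classical.choose h else 0)) ?_ ?_
    · intro x hx
      have h := hex x hx
      have hx' := (mem_product.1 (mem_filter.1 hx).1).1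
      simp only [dif_pos h, coe_product, Set.mem_prod, mem_coe]
      exact ⟨hx', (Classical.choose_spec h).1⟩
    · intro x hx y hy hxy
      have hx1 := hex x hx
      have hy1 := hex y hy
      simp only [dif_pos hx1, dif_pos hy1, Prod.mk.injEq] at hxy
      obtain ⟨e1, e2⟩ := hxy
      have f1 := (Classical.choose_spec hx1)
      have f2 := (Classical.choose_spec hy1)
      rw [← e2] at f2
      have hpx := mem_product.1 (mem_filter.1 hx).1
      have hpy := mem_product.1 (mem_filter.1 hy).1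
      have gx1 := (mem_filter.1 hpx.1).2
      have gx2 := (mem_filter.1 hpx.2).2
      have gy2 := (mem_filter.1 hpy.2).2
      have hc := cp_trans _ _ _ (hF0 _ f1.1) f1.2 f2.2
      simp only [hW] at hc
      rw [← e1] at hc
      have hc2 := cp_wv _ _ _ hc gx1.2.2
      have := rep_par _ _ gx2.1 gy2.1 hc2
      exact Prod.ext e1 this
  have hgoodge : (c0 * c1 / 2) * ((X₁ : ℝ) ^ 3 * (X₂ : ℝ) ^ 3) ≤ good.card := by
    rw [card_product] at hbadle
    have hbr : (bad.card : ℝ) ≤ P1.card * F.card := by exact_mod_cast hbadle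
    have hgr : (good.card : ℝ) + bad.card = P1.card * P2.card := by exact_mod_cast hgb
    have hF1 : (P1.card : ℝ) * F.card ≤ 27 * (X₁ : ℝ) ^ 3 * F.card :=
      mul_le_mul_of_nonneg_right hP1le (by positivity)
    have hPP : (c0 * (X₁ : ℝ) ^ 3) * (c1 * (X₂ : ℝ) ^ 3) ≤ P1.card * P2.card :=
      mul_le_mul cP1 cP2 (by positivity) (by positivity)
    have hKX : (54 * (F.card : ℝ) / (c0 * c1)) ≤ (X₂ : ℝ) ^ 3 := by
      have e1 : (Ka : ℝ) ≤ X₂ := by exact_mod_cast (by omega : Ka ≤ X₂)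
      have e2 : (X₂ : ℝ) ≤ (X₂ : ℝ) ^ 3 := by
        calc (X₂ : ℝ) = (X₂ : ℝ) ^ 1 := (pow_one _).symm
          _ ≤ (X₂ : ℝ) ^ 3 := pow_le_pow_right₀ hX2r (by norm_num)
      linarith
    rw [div_le_iff₀ (by positivity)] at hKX
    have := mul_le_mul_of_nonneg_left hKX (by positivity : (0 : ℝ) ≤ (X₁ : ℝ) ^ 3)
    nlinarith [this, hPP, hF1, hgr, hbr]
  set T : (Fin 3 → ℤ) × (Fin 3 → ℤ) → Finset (Fin 3 → ℤ) := fun x =>
    (bx X₃).filter fun r => (Rep r ∧ ∑ k, W x k * r k = 0) ∧ dm (mp b2 r) ≠ 0 with hTd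
  have hXpos : (0 : ℝ) < (X₁ : ℝ) * X₂ := by positivity
  have hX3r : (K : ℝ) * ((X₁ : ℝ) * X₂) ^ 3 ≤ X₃ := by exact_mod_cast h3
  have hTge : ∀ x ∈ good, (cL / (18 * m)) * ((X₃ : ℝ) ^ 2 / ((X₁ : ℝ) * X₂)) ≤ (T x).card := by
    intro x hx
    have hx2 := (mem_filter.1 hx).2
    have hpx := mem_product.1 (mem_filter.1 hx).1
    have gx1 := mem_filter.1 hpx.1
    have gx2 := mem_filter.1 hpx.2
    have hwne : W x ≠ 0 := wv_ne gx1.2.2.2 gx2.2.1.1
    have hwle : nm (W x) ≤ 9 * m * X₁ * X₂ := by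
      apply nm_le
      intro k
      rw [hm]
      exact wv_le b0 gx1.1 gx2.1 k
    have hwpos := nm_pos_of_ne hwne
    have hwpos' : (1 : ℝ) ≤ nm (W x) := by exact_mod_cast hwpos
    have hwle' : (nm (W x) : ℝ) ≤ 9 * m * X₁ * X₂ := by exact_mod_cast hwle
    have hR : (KL : ℤ) * nm (W x) ^ 3 ≤ X₃ := by
      have e1 : nm (W x) ^ 3 ≤ (9 * m * X₁ * X₂ : ℤ) ^ 3 :=
        pow_le_pow_left₀ (by omega) hwle 3
      have e2 : (KL : ℤ) * nm (W x) ^ 3 ≤ KL * (9 * m * X₁ * X₂ : ℤ) ^ 3 :=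
        mul_le_mul_of_nonneg_left e1 (by positivity)
      have e3 : (KL : ℤ) * (9 * m * X₁ * X₂ : ℤ) ^ 3 = ((KL * (9 * m) ^ 3 : ℕ) : ℤ) *
          (((X₁ * X₂) ^ 3 : ℕ) : ℤ) := by push_cast; ring
      have e4 : KL * (9 * m) ^ 3 ≤ K := by omega
      have e5 : KL * (9 * m) ^ 3 * (X₁ * X₂) ^ 3 ≤ X₃ :=
        le_trans (Nat.mul_le_mul_right _ e4) h3
      rw [e3] at e2
      have e6 : ((KL * (9 * m) ^ 3 : ℕ) : ℤ) * (((X₁ * X₂) ^ 3 : ℕ) : ℤ) ≤ X₃ := by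
        exact_mod_cast e5
      exact le_trans e2 e6
    have hcnt := hT (W x) hwne X₃ hR
    set U := (bx X₃).filter fun r => Rep r ∧ ∑ k, W x k * r k = 0 with hU
    have hsplit : (U.filter fun r => dm (mp b2 r) ≠ 0).card +
        (U.filter fun r => ¬ dm (mp b2 r) ≠ 0).card = U.card :=
      card_filter_add_card_filter_not _
    have hsix : (U.filter fun r => ¬ dm (mp b2 r) ≠ 0).card ≤ 6 := by
      apply hF (W x) hwne hx2
      intro r hr
      have := mem_filter.1 hr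
      have h2 := (mem_filter.1 this.1).2
      exact ⟨h2.1.1, h2.2, not_not.1 this.2⟩
    have hTU : T x = U.filter fun r => dm (mp b2 r) ≠ 0 := by
      rw [hTd, hU, filter_filter]
    rw [hTU]
    have hr1 : ((U.filter fun r => dm (mp b2 r) ≠ 0).card : ℝ) + 6 ≥ U.card := by
      have : U.card ≤ (U.filter fun r => dm (mp b2 r) ≠ 0).card + 6 := by omega
      exact_mod_cast this
    have hq1 : cL * (X₃ : ℝ) ^ 2 / (9 * m * X₁ * X₂) ≤ cL * (X₃ : ℝ) ^ 2 / nm (W x) :=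
      div_le_div_of_nonneg_left (by positivity) (by linarith) hwle'
    have hbig : 12 ≤ cL * (X₃ : ℝ) ^ 2 / (9 * m * X₁ * X₂) := by
      rw [le_div_iff₀ (by positivity)]
      have k1 : 108 * (m : ℝ) / cL ≤ K := by
        have : (Kb : ℝ) ≤ K := by exact_mod_cast (by omega : Kb ≤ K)
        linarith
      rw [div_le_iff₀ hcL] at k1
      have k2 : (X₁ : ℝ) * X₂ ≤ ((X₁ : ℝ) * X₂) ^ 3 := by
        have : (1 : ℝ) ≤ (X₁ : ℝ) * X₂ := by nlinarith
        calc (X₁ : ℝ) * X₂ = ((X₁ : ℝ) * X₂) ^ 1 := (pow_one _).symm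
          _ ≤ _ := pow_le_pow_right₀ this (by norm_num)
      have k3 : (K : ℝ) * ((X₁ : ℝ) * X₂) ≤ X₃ :=
        le_trans (mul_le_mul_of_nonneg_left k2 (by positivity)) hX3r
      have hK1 : (1 : ℝ) ≤ K := by exact_mod_cast (by omega : 1 ≤ K)
      have k4 : (X₁ : ℝ) * X₂ ≤ X₃ := by nlinarith
      have k5 : (1 : ℝ) ≤ X₃ := by nlinarith
      have k6 : (X₃ : ℝ) ≤ (X₃ : ℝ) ^ 2 := by nlinarith
      calc 12 * (9 * (m : ℝ) * X₁ * X₂) = (108 * m) * ((X₁ : ℝ) * X₂) := by ring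
        _ ≤ (K * cL) * ((X₁ : ℝ) * X₂) := mul_le_mul_of_nonneg_right k1 hXpos.le
        _ = cL * (K * ((X₁ : ℝ) * X₂)) := by ring
        _ ≤ cL * X₃ := mul_le_mul_of_nonneg_left k3 hcL.le
        _ ≤ cL * (X₃ : ℝ) ^ 2 := mul_le_mul_of_nonneg_left k6 hcL.le
    have hid : (cL / (18 * m)) * ((X₃ : ℝ) ^ 2 / ((X₁ : ℝ) * X₂)) =
        cL * (X₃ : ℝ) ^ 2 / (9 * m * X₁ * X₂) / 2 := by
      field_simp
      ring
    rw [hid]
    linarith
  -- the set
  refine ⟨(good.sigma T).image (fun z => ![z.1.1, z.1.2, z.2]), ?_, ?_⟩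
  · intro P hP
    obtain ⟨z, hz, rfl⟩ := mem_image.1 hP
    obtain ⟨hz1, hz2⟩ := mem_sigma.1 hz
    have hpx := mem_product.1 (mem_filter.1 hz1).1
    have gx1 := mem_filter.1 hpx.1
    have gx2 := mem_filter.1 hpx.2
    have gz := mem_filter.1 hz2
    refine ⟨?_, ?_, ?_, mem_bx.1 gx1.1, gx1.2.2.1, mem_bx.1 gx2.1, gx2.2.2.1, mem_bx.1 gz.1⟩
    · intro i
      fin_cases i
      · exact gx1.2.1
      · exact gx2.2.1
      · exact gz.2.1.1
    · rw [tf_cf br a 1, cf_wv, ← hb0]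
      exact gz.2.1.2
    · apply inU_of
      · rw [← hb0]; exact gx1.2.2.2
      · rw [← hb1]; exact gx2.2.2.2
      · rw [← hb2]; exact gz.2.2
  · have hinj : Function.Injective (fun z : (Σ _ : (Fin 3 → ℤ) × (Fin 3 → ℤ), (Fin 3 → ℤ)) =>
        (![z.1.1, z.1.2, z.2] : Fin 3 → Fin 3 → ℤ)) := by
      rintro ⟨⟨p, q⟩, r⟩ ⟨⟨p', q'⟩, r'⟩ h
      have e0 := congrFun h 0
      have e1 := congrFun h 1
      have e2 := congrFun h 2
      simp at e0 e1 e2
      subst e0 e1 e2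
      rfl
    rw [card_image_of_injective _ hinj, card_sigma]
    push_cast
    calc (c0 * c1 / 2) * (cL / (18 * m)) * ((X₁ : ℝ) * X₂ * X₃) ^ 2
        = ((c0 * c1 / 2) * ((X₁ : ℝ) ^ 3 * (X₂ : ℝ) ^ 3)) *
          ((cL / (18 * m)) * ((X₃ : ℝ) ^ 2 / ((X₁ : ℝ) * X₂))) := by
          field_simp
      _ ≤ (good.card : ℝ) * ((cL / (18 * m)) * ((X₃ : ℝ) ^ 2 / ((X₁ : ℝ) * X₂))) :=
          mul_le_mul_of_nonneg_right hgoodge (by positivity)
      _ = ∑ _x ∈ good, ((cL / (18 * m)) * ((X₃ : ℝ) ^ 2 / ((X₁ : ℝ) * X₂))) := by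
          rw [sum_const, nsmul_eq_mul]
      _ ≤ ∑ x ∈ good, ((T x).card : ℝ) := sum_le_sum hTge

end Pool.Agent.W452.QO
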